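import Pool.Agent.H23.LB.Targets
import Pool.Agent.H87.HK.YC
import Pool.Agent.H48.RC.RX

/-!
# (WF) the functional equation of the theta function of a coset
-/

set_option autoImplicit false

open NumberField NumberField.InfinitePlace NumberField.Units
  NumberField.Units.dirichletUnitTheorem MeasureTheory Set Filter Complex
open scoped nonZeroDivisors ENNReal

namespace Pool.Agent.H26.GLA

open Pool.Agent.H25.HK Pool.Agent.H28.RC Pool.Agent.H23.LB

theorem cv_pos (K : Type) [Field K] [NumberField K] (M : FI K) (hM : M ≠ 0) : 0 < cv K M := by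
  unfold cv
  have h1 : (0 : ℝ) < |(discr K : ℝ)| := abs_pos.mpr (by exact_mod_cast discr_ne_zero K)
  have h2 : (0 : ℚ) ≤ FractionalIdeal.absNorm M := FractionalIdeal.absNorm_nonneg M
  have h3 : FractionalIdeal.absNorm M ≠ 0 := fun h => hM (FractionalIdeal.absNorm_eq_zero_iff.mp h)
  have h4 : (0 : ℚ) < FractionalIdeal.absNorm M := lt_of_le_of_ne h2 h3.symm
  have h5 : (0 : ℝ) < (FractionalIdeal.absNorm M : ℝ) := by exact_mod_cast h4
  positivity

theorem fneg (K : Type) [Field K] [NumberField K] (L : FI K) {x : K} (hx : x ∈ L) : -x ∈ L :=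
  (L : Submodule (𝓞 K) K).neg_mem hx

theorem fadd (K : Type) [Field K] [NumberField K] (L : FI K) {x y : K} (hx : x ∈ L)
    (hy : y ∈ L) : x + y ∈ L :=
  (L : Submodule (𝓞 K) K).add_mem hx hy

theorem fsub (K : Type) [Field K] [NumberField K] (L : FI K) {x y : K} (hx : x ∈ L)
    (hy : y ∈ L) : x - y ∈ L :=
  (L : Submodule (𝓞 K) K).sub_mem hx hy

theorem trace_int (K : Type) [Field K] [NumberField K] (L : FI K) (hL : L ≠ 0) (a x : K)
    (ha : a ∈ L) (hx : x ∈ du K L) : ∃ m : ℤ, Algebra.trace ℚ K (a * x) = m := by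
  unfold du at hx
  rw [FractionalIdeal.mem_dual hL] at hx
  obtain ⟨m, hm⟩ := hx a ha
  refine ⟨m, ?_⟩
  rw [Algebra.traceForm_apply, mul_comm] at hm
  rw [← hm]
  simp

theorem ca_add (K : Type) [Field K] [NumberField K] (L : FI K) (hL : L ≠ 0) (r a x : K)
    (ha : a ∈ L) (hx : x ∈ du K L) : ca K (r + a) x = ca K r x := by
  obtain ⟨m, hm⟩ := trace_int K L hL a x ha hx
  unfold ca
  rw [add_mul, map_add, hm]
  push_cast
  rw [mul_add, Complex.exp_add]
  have h : cexp (2 * Real.pi * I * (m : ℂ)) = 1 := by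
    rw [Complex.exp_eq_one_iff]
    exact ⟨m, by ring⟩
  rw [h, mul_one]

theorem ft_ci (K : Type) [Field K] [NumberField K] (f : Ideal (𝓞 K)) (M : FI K) (r : K)
    (X : Finset K) (hL : (f : FI K) * M ≠ 0) (hX : Rep K f M X) (hr : r ∈ M) (x : K)
    (hx : x ∈ du K ((f : FI K) * M)) : ft K X (ci K f M r) x = ca K r x := by
  classical
  obtain ⟨r0, ⟨hr0, hr1⟩, huniq⟩ := hX.2 r hr
  have h0 : ci K f M r r0 = 1 := by
    unfold ci
    rw [if_pos]
    have : r0 - r = -(r - r0) := by ring
    rw [this]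
    exact fneg K _ hr1
  unfold ft
  rw [Finset.sum_eq_single r0]
  · rw [h0, one_mul]
    have h1 : ca K (r0 + (r - r0)) x = ca K r0 x := ca_add K _ hL r0 (r - r0) x hr1 hx
    rw [add_sub_cancel] at h1
    rw [h1]
    rfl
  · intro b hb hb0
    have h1 : ci K f M r b = 0 := by
      unfold ci
      rw [if_neg]
      intro h
      refine hb0 (huniq b ⟨hb, ?_⟩)
      have : r - b = -(b - r) := by ring
      rw [this]
      exact fneg K _ h
    rw [h1, zero_mul]
  · intro h
    exact absurd hr0 h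

theorem tz_congr (K : Type) [Field K] [NumberField K] (S : Finset (RP K)) (M : FI K)
    (c c' : K → ℂ) (h : ∀ x ∈ M, c x = c' x) (ζ : ℂ) (y : InfinitePlace K → ℝ) :
    tz K S M c ζ y = tz K S M c' ζ y := by
  unfold tz
  exact tsum_congr fun x => by rw [h x.1 x.2]

theorem pf_WF (hTZ : T_TZ) : T_WF := by
  intro K _ _ S f M r φ hf hM hr hφ z T hT
  obtain ⟨hy1, hy2, -, -, -, -⟩ := Pool.Agent.H87.HK.yc_main K
  obtain ⟨X, hX, -⟩ := Pool.Agent.H48.RC.pf_RX K f M hf hM
  have hf0 : (f : FI K) ≠ 0 := by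
    rw [Ne, FractionalIdeal.coeIdeal_eq_zero]
    exact hf
  have hL : (f : FI K) * M ≠ 0 := mul_ne_zero hf0 hM
  have hcv := cv_pos K _ hL
  have hper : ∀ x ∈ M, ∀ l ∈ (f : FI K) * M, ci K f M r (x + l) = ci K f M r x := by
    intro x _ l hl
    unfold ci
    have h1 : x + l - r ∈ (f : FI K) * M ↔ x - r ∈ (f : FI K) * M := by
      have h2 : x + l - r = (x - r) + l := by ring
      rw [h2]
      constructor
      · intro h
        have h3 : x - r = (x - r + l) - l := by ring
        rw [h3]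
        exact fsub K _ h hl
      · intro h
        exact fadd K _ h hl
    by_cases h : x - r ∈ (f : FI K) * M
    · rw [if_pos (h1.mpr h), if_pos h]
    · rw [if_neg (fun h' => h (h1.mp h')), if_neg h]
  have him : |((φ : ℂ) * I).im| < Real.pi / 2 := by
    simpa using hφ
  have H := hTZ K S f M X (ci K f M r) hf hM hX hper
    (yc K (Real.log (1 / T / cv K ((f : FI K) * M))) z) ((φ : ℂ) * I) him
  unfold W
  rw [H]
  have hlog : Real.log (1 / T / cv K ((f : FI K) * M)) =
      -Real.log (T * cv K ((f : FI K) * M)) := by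
    rw [← Real.log_inv]
    congr 1
    field_simp
  have h1 : -(yc K (Real.log (1 / T / cv K ((f : FI K) * M))) z) =
      yc K (Real.log (T * cv K ((f : FI K) * M))) (-z) := by
    rw [← hy2, hlog, neg_neg]
  rw [h1, tz_congr K S (du K ((f : FI K) * M)) (ft K X (ci K f M r)) (ca K r)
    (fun x hx => ft_ci K f M r X hL hX hr x hx), hy1, hlog]
  have h2 : -(2 * -Real.log (T * cv K ((f : FI K) * M))) / 2 =
      Real.log (T * cv K ((f : FI K) * M)) := by ring
  rw [h2, Real.exp_log (mul_pos hT hcv), mul_assoc T, mul_inv_cancel₀ hcv.ne', mul_one]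
  unfold rn W'
  have h3 : cexp (-((Module.finrank ℚ K : ℂ) * ((φ : ℂ) * I) / 2)) =
      cexp (-((φ : ℂ) * (Module.finrank ℚ K : ℂ) / 2) * I) := by
    congr 1
    ring
  rw [h3]
  ring

end Pool.Agent.H26.GLA
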