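import Mathlib

/-!
# Mellin transforms of functions which decay exponentially, with parameters
-/

set_option autoImplicit false

open MeasureTheory Set Filter Complex
open scoped Topology

namespace Pool.Agent.H26.GLA

/-- the bounding function is integrable -/
theorem bd_int {c a : ℝ} (hc : 0 < c) (ha : 0 < a) (N : ℝ) (hN : 0 ≤ N) (C : ℝ) :
    IntegrableOn (fun T : ℝ => C * (T ^ N * Real.exp (-c * T ^ a))) (Ioi 1) := by
  have h1 := integrableOn_rpow_mul_exp_neg_mul_rpow (p := a) (s := N) (b := c) (by linarith) ha hc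
  exact (h1.mono_set (Ioi_subset_Ioi zero_le_one)).const_mul C

theorem pw_bound {N : ℝ} (s : ℂ) (h : s.re - 1 ≤ N) {T : ℝ} (hT : 1 ≤ T) :
    ‖(T : ℂ) ^ (s - 1)‖ ≤ T ^ N := by
  rw [Complex.norm_cpow_eq_rpow_re_of_pos (lt_of_lt_of_le one_pos hT)]
  refine Real.rpow_le_rpow_of_exponent_le hT ?_
  simpa using h

section

variable {ι : Type} [Fintype ι] {F : ℝ × (ι → ℝ) → ℂ} {a : ℝ}

theorem cpow_cont (s : ℂ) : ContinuousOn (fun T : ℝ => (T : ℂ) ^ (s - 1)) (Ioi 0) := by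
  intro T hT
  have h1 : ContinuousAt (fun T : ℝ => (T : ℂ) ^ (s - 1)) T := by
    refine ContinuousAt.cpow (by fun_prop) continuousAt_const ?_
    exact Or.inl (by simpa using hT)
  exact h1.continuousWithinAt

theorem cont_one (hF : ContinuousOn F (Ioi 0 ×ˢ univ)) (z : ι → ℝ) (s : ℂ) :
    ContinuousOn (fun T : ℝ => F (T, z) * (T : ℂ) ^ (s - 1)) (Ioi 0) := by
  refine ContinuousOn.mul ?_ (cpow_cont s)
  exact hF.comp (by fun_prop) fun T hT => ⟨hT, mem_univ _⟩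

/-- decay -/
def Dcy (F : ℝ × (ι → ℝ) → ℂ) (a : ℝ) : Prop :=
  ∀ B : ℝ, ∃ C c : ℝ, 0 < c ∧ ∀ T : ℝ, 1 ≤ T → ∀ z : ι → ℝ, (∀ w, |z w| ≤ B) →
    ‖F (T, z)‖ ≤ C * Real.exp (-c * T ^ a)

theorem term_bound {C c : ℝ} {N : ℝ} {z : ι → ℝ} {T : ℝ} (hT : 1 ≤ T)
    (h : ‖F (T, z)‖ ≤ C * Real.exp (-c * T ^ a)) (s : ℂ) (hs : s.re - 1 ≤ N) :
    ‖F (T, z) * (T : ℂ) ^ (s - 1)‖ ≤ C * (T ^ N * Real.exp (-c * T ^ a)) := by
  rw [norm_mul]
  have h1 := pw_bound s hs hT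
  calc ‖F (T, z)‖ * ‖(T : ℂ) ^ (s - 1)‖ ≤ (C * Real.exp (-c * T ^ a)) * T ^ N :=
        mul_le_mul h h1 (norm_nonneg _) (le_trans (norm_nonneg _) h)
    _ = _ := by ring

theorem int_one (ha : 0 < a) (hF : ContinuousOn F (Ioi 0 ×ˢ univ)) (hD : Dcy F a)
    (z : ι → ℝ) (s : ℂ) : IntegrableOn (fun T : ℝ => F (T, z) * (T : ℂ) ^ (s - 1)) (Ioi 1) := by
  obtain ⟨C, c, hc, h⟩ := hD ‖z‖
  have hz : ∀ w, |z w| ≤ ‖z‖ := fun w => norm_le_pi_norm z w
  refine Integrable.mono' (bd_int hc ha |s.re| (abs_nonneg _) C) ?_ ?_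
  · exact ((cont_one hF z s).mono (Ioi_subset_Ioi zero_le_one)).aestronglyMeasurable
      measurableSet_Ioi
  · filter_upwards [ae_restrict_mem measurableSet_Ioi] with T hT
    exact term_bound (le_of_lt hT) (h T (le_of_lt hT) z hz) s
      (by linarith [le_abs_self s.re])

theorem cont_z (ha : 0 < a) (hF : ContinuousOn F (Ioi 0 ×ˢ univ)) (hD : Dcy F a) (s : ℂ) :
    Continuous fun z : ι → ℝ => ∫ T in Ioi (1 : ℝ), F (T, z) * (T : ℂ) ^ (s - 1) := by
  rw [continuous_iff_continuousAt]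
  intro z₀
  obtain ⟨C, c, hc, h⟩ := hD (‖z₀‖ + 1)
  have hnear : ∀ᶠ z in 𝓝 z₀, ∀ w, |z w| ≤ ‖z₀‖ + 1 := by
    have h1 : ∀ᶠ z in 𝓝 z₀, ‖z‖ < ‖z₀‖ + 1 :=
      (continuous_norm.tendsto z₀).eventually (gt_mem_nhds (lt_add_one _))
    filter_upwards [h1] with z hz w
    exact (norm_le_pi_norm z w).trans hz.le
  refine continuousAt_of_dominated (bound := fun T => C * (T ^ |s.re| * Real.exp (-c * T ^ a)))
    ?_ ?_ (bd_int hc ha |s.re| (abs_nonneg _) C) ?_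
  · exact Eventually.of_forall fun z =>
      ((cont_one hF z s).mono (Ioi_subset_Ioi zero_le_one)).aestronglyMeasurable
        measurableSet_Ioi
  · filter_upwards [hnear] with z hz
    filter_upwards [ae_restrict_mem measurableSet_Ioi] with T hT
    exact term_bound (le_of_lt hT) (h T (le_of_lt hT) z hz) s
      (by linarith [le_abs_self s.re])
  · filter_upwards [ae_restrict_mem measurableSet_Ioi] with T hT
    have hT0 : (0 : ℝ) < T := lt_trans one_pos hT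
    have h1 : ContinuousAt F (T, z₀) :=
      hF.continuousAt (prod_mem_nhds (Ioi_mem_nhds hT0) univ_mem)
    have h2 : ContinuousAt (fun z : ι → ℝ => F (T, z)) z₀ :=
      h1.comp (f := fun z : ι → ℝ => (T, z)) (by fun_prop)
    exact h2.mul continuousAt_const

/-- the double integral -/
theorem double_int (ha : 0 < a) (hF : ContinuousOn F (Ioi 0 ×ˢ univ)) (hD : Dcy F a)
    {D : Set (ι → ℝ)} (hDm : MeasurableSet D) (hDv : volume D < ⊤)
    (hDb : ∃ B : ℝ, ∀ z ∈ D, ∀ w, |z w| ≤ B) {g : (ι → ℝ) → ℂ} (hg : Continuous g)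
    (hg1 : ∀ z, ‖g z‖ = 1) :
    (∀ s : ℂ, Integrable (fun p : (ι → ℝ) × ℝ => g p.1 * (F (p.2, p.1) * (p.2 : ℂ) ^ (s - 1)))
      ((volume.restrict D).prod (volume.restrict (Ioi 1)))) ∧
    Differentiable ℂ fun s : ℂ => ∫ p : (ι → ℝ) × ℝ,
      g p.1 * (F (p.2, p.1) * (p.2 : ℂ) ^ (s - 1))
        ∂((volume.restrict D).prod (volume.restrict (Ioi 1))) := by
  obtain ⟨B, hB⟩ := hDb
  obtain ⟨C, c, hc, h⟩ := hD B
  have hprod : (volume.restrict D).prod (volume.restrict (Ioi (1 : ℝ))) =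
      ((volume : Measure (ι → ℝ)).prod (volume : Measure ℝ)).restrict (D ×ˢ Ioi 1) :=
    Measure.prod_restrict _ _
  have hmem : ∀ᵐ p ∂((volume.restrict D).prod (volume.restrict (Ioi (1 : ℝ)))),
      p ∈ D ×ˢ Ioi (1 : ℝ) := by
    rw [hprod]
    exact ae_restrict_mem (hDm.prod measurableSet_Ioi)
  have hcont : ∀ s : ℂ, ContinuousOn (fun p : (ι → ℝ) × ℝ =>
      g p.1 * (F (p.2, p.1) * (p.2 : ℂ) ^ (s - 1))) (D ×ˢ Ioi 1) := by
    intro s
    refine ContinuousOn.mul (hg.comp continuous_fst).continuousOn (ContinuousOn.mul ?_ ?_)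
    · refine hF.comp (f := fun p : (ι → ℝ) × ℝ => (p.2, p.1)) (by fun_prop) ?_
      rintro p ⟨-, hp⟩
      have hp' : (1 : ℝ) < p.2 := hp
      exact ⟨show (0 : ℝ) < p.2 from lt_trans one_pos hp', mem_univ _⟩
    · refine (cpow_cont s).comp (f := fun p : (ι → ℝ) × ℝ => p.2) (by fun_prop) ?_
      rintro p ⟨-, hp⟩
      have hp' : (1 : ℝ) < p.2 := hp
      exact show (0 : ℝ) < p.2 from lt_trans one_pos hp'
  have hmeas : ∀ s : ℂ, AEStronglyMeasurable (fun p : (ι → ℝ) × ℝ =>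
      g p.1 * (F (p.2, p.1) * (p.2 : ℂ) ^ (s - 1)))
      ((volume.restrict D).prod (volume.restrict (Ioi 1))) := by
    intro s
    rw [hprod]
    exact (hcont s).aestronglyMeasurable (hDm.prod measurableSet_Ioi)
  have hfin : IsFiniteMeasure ((volume : Measure (ι → ℝ)).restrict D) :=
    ⟨by rw [Measure.restrict_apply_univ]; exact hDv⟩
  have hbd : ∀ N : ℝ, 0 ≤ N → Integrable (fun p : (ι → ℝ) × ℝ =>
      (1 : ℝ) * (C * (p.2 ^ N * Real.exp (-c * p.2 ^ a))))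
      ((volume.restrict D).prod (volume.restrict (Ioi 1))) := fun N hN =>
    (integrable_const (1 : ℝ)).mul_prod (bd_int hc ha N hN C)
  have hint : ∀ s : ℂ, Integrable (fun p : (ι → ℝ) × ℝ =>
      g p.1 * (F (p.2, p.1) * (p.2 : ℂ) ^ (s - 1)))
      ((volume.restrict D).prod (volume.restrict (Ioi 1))) := by
    intro s
    refine Integrable.mono' (hbd |s.re| (abs_nonneg _)) (hmeas s) ?_
    filter_upwards [hmem] with p hp
    rw [norm_mul, hg1, one_mul, one_mul]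
    exact term_bound (le_of_lt hp.2) (h p.2 (le_of_lt hp.2) p.1 (hB p.1 hp.1)) s
      (by linarith [le_abs_self s.re])
  refine ⟨hint, ?_⟩
  intro s₀
  have hd := hasDerivAt_integral_of_dominated_loc_of_deriv_le
    (μ := (volume.restrict D).prod (volume.restrict (Ioi (1 : ℝ))))
    (F := fun (s : ℂ) (p : (ι → ℝ) × ℝ) => g p.1 * (F (p.2, p.1) * (p.2 : ℂ) ^ (s - 1)))
    (F' := fun (s : ℂ) (p : (ι → ℝ) × ℝ) => g p.1 * (F (p.2, p.1) * ((p.2 : ℂ) ^ (s - 1) *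
      Complex.log (p.2 : ℂ))))
    (x₀ := s₀) (s := Metric.ball s₀ 1)
    (bound := fun p => (1 : ℝ) * (C * (p.2 ^ (|s₀.re| + 1 + 1) * Real.exp (-c * p.2 ^ a))))
    (Metric.ball_mem_nhds s₀ one_pos) (Eventually.of_forall hmeas) (hint s₀) ?_ ?_
    (hbd _ (by positivity)) ?_
  · exact hd.2.differentiableAt
  · rw [hprod]
    refine ContinuousOn.aestronglyMeasurable ?_ (hDm.prod measurableSet_Ioi)
    refine ContinuousOn.mul (hg.comp continuous_fst).continuousOn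
      (ContinuousOn.mul ?_ (ContinuousOn.mul ?_ ?_))
    · refine hF.comp (f := fun p : (ι → ℝ) × ℝ => (p.2, p.1)) (by fun_prop) ?_
      rintro p ⟨-, hp⟩
      have hp' : (1 : ℝ) < p.2 := hp
      exact ⟨show (0 : ℝ) < p.2 from lt_trans one_pos hp', mem_univ _⟩
    · refine (cpow_cont s₀).comp (f := fun p : (ι → ℝ) × ℝ => p.2) (by fun_prop) ?_
      rintro p ⟨-, hp⟩
      have hp' : (1 : ℝ) < p.2 := hp
      exact show (0 : ℝ) < p.2 from lt_trans one_pos hp'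
    · refine ContinuousOn.clog (by fun_prop) ?_
      rintro p ⟨-, hp⟩
      exact Or.inl (by simpa using lt_trans one_pos hp)
  · filter_upwards [hmem] with p hp s hs
    have hp1 : (1 : ℝ) ≤ p.2 := le_of_lt hp.2
    have hp0 : (0 : ℝ) < p.2 := lt_of_lt_of_le one_pos hp1
    have h1 : ‖Complex.log (p.2 : ℂ)‖ ≤ p.2 := by
      rw [← Complex.ofReal_log hp0.le, Complex.norm_real, Real.norm_eq_abs,
        abs_of_nonneg (Real.log_nonneg hp1)]
      exact (Real.log_le_sub_one_of_pos hp0).trans (by linarith)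
    have h2 : s.re ≤ |s₀.re| + 1 := by
      have h3 : ‖s - s₀‖ < 1 := by simpa [dist_eq_norm] using hs
      have h4 : (s - s₀).re ≤ ‖s - s₀‖ := Complex.re_le_norm _
      rw [Complex.sub_re] at h4
      linarith [le_abs_self s₀.re]
    have h5 := term_bound (F := F) (a := a) (N := |s₀.re| + 1) hp1
      (h p.2 hp1 p.1 (hB p.1 hp.1)) s (by linarith)
    rw [norm_mul] at h5
    rw [norm_mul, norm_mul, norm_mul, hg1, one_mul, one_mul, ← mul_assoc, Real.rpow_add hp0,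
      Real.rpow_one]
    calc ‖F (p.2, p.1)‖ * ‖(p.2 : ℂ) ^ (s - 1)‖ * ‖Complex.log (p.2 : ℂ)‖
        ≤ (C * (p.2 ^ (|s₀.re| + 1) * Real.exp (-c * p.2 ^ a))) * p.2 :=
          mul_le_mul h5 h1 (norm_nonneg _) (le_trans (by positivity) h5)
      _ = _ := by ring
  · filter_upwards [hmem] with p hp s hs
    have hp0 : (p.2 : ℂ) ≠ 0 := by
      have := lt_trans one_pos (show (1 : ℝ) < p.2 from hp.2)
      exact_mod_cast this.ne'
    have h1 : HasDerivAt (fun s : ℂ => (p.2 : ℂ) ^ (s - 1))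
        ((p.2 : ℂ) ^ (s - 1) * Complex.log (p.2 : ℂ)) s := by
      have h2 := ((hasDerivAt_id s).sub_const 1).const_cpow (c := (p.2 : ℂ)) (Or.inl hp0)
      simpa using h2
    exact (h1.const_mul _).const_mul _

/-- the parametric Mellin transform, integrated over a bounded set -/
theorem param (ha : 0 < a) (hF : ContinuousOn F (Ioi 0 ×ˢ univ)) (hD : Dcy F a)
    {D : Set (ι → ℝ)} (hDm : MeasurableSet D) (hDv : volume D < ⊤)
    (hDb : ∃ B : ℝ, ∀ z ∈ D, ∀ w, |z w| ≤ B) {g : (ι → ℝ) → ℂ} (hg : Continuous g)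
    (hg1 : ∀ z, ‖g z‖ = 1) :
    (∀ s : ℂ, IntegrableOn (fun z : ι → ℝ => g z * ∫ T in Ioi (1 : ℝ),
      F (T, z) * (T : ℂ) ^ (s - 1)) D) ∧
    Differentiable ℂ fun s : ℂ => ∫ z in D, g z * ∫ T in Ioi (1 : ℝ),
      F (T, z) * (T : ℂ) ^ (s - 1) := by
  obtain ⟨h1, h2⟩ := double_int ha hF hD hDm hDv hDb hg hg1
  have h3 : ∀ (s : ℂ) (z : ι → ℝ), ∫ T in Ioi (1 : ℝ), g z * (F (T, z) * (T : ℂ) ^ (s - 1)) =
      g z * ∫ T in Ioi (1 : ℝ), F (T, z) * (T : ℂ) ^ (s - 1) := fun s z =>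
    integral_const_mul _ _
  refine ⟨fun s => ?_, ?_⟩
  · have h4 := (h1 s).integral_prod_left
    simp only [h3] at h4
    exact h4
  · have h5 : (fun s : ℂ => ∫ z in D, g z * ∫ T in Ioi (1 : ℝ),
        F (T, z) * (T : ℂ) ^ (s - 1)) = fun s : ℂ => ∫ p : (ι → ℝ) × ℝ,
        g p.1 * (F (p.2, p.1) * (p.2 : ℂ) ^ (s - 1))
        ∂((volume.restrict D).prod (volume.restrict (Ioi 1))) := by
      funext s
      rw [integral_prod _ (h1 s)]
      simp only [h3]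
    rw [h5]
    exact h2

end

/-- inversion -/
theorem inv_int (q : ℝ → ℂ) (s : ℂ)
    (hq : IntegrableOn (fun T : ℝ => q T * (T : ℂ) ^ (-s)) (Ioi 1)) :
    IntegrableOn (fun T : ℝ => q (1 / T) * (T : ℂ) ^ (s - 2)) (Ioo 0 1) ∧
    ∫ T in Ioo (0 : ℝ) 1, q (1 / T) * (T : ℂ) ^ (s - 2) =
      ∫ T in Ioi (1 : ℝ), q T * (T : ℂ) ^ (-s) := by
  have hsub : Ioi (1 : ℝ) ⊆ Ioi 0 := Ioi_subset_Ioi zero_le_one
  have hf : IntegrableOn ((Ioi (1 : ℝ)).indicator fun T : ℝ => q T * (T : ℂ) ^ (-s)) (Ioi 0) :=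
    (hq.integrable_indicator measurableSet_Ioi).integrableOn
  have h1 := (integrableOn_Ioi_comp_rpow_iff
    ((Ioi (1 : ℝ)).indicator fun T : ℝ => q T * (T : ℂ) ^ (-s)) (p := (-1 : ℝ))
    (by norm_num)).mpr hf
  have h2 := integral_comp_rpow_Ioi
    ((Ioi (1 : ℝ)).indicator fun T : ℝ => q T * (T : ℂ) ^ (-s)) (p := (-1 : ℝ)) (by norm_num)
  have h3 : ∀ x ∈ Ioi (0 : ℝ), (|(-1 : ℝ)| * x ^ ((-1 : ℝ) - 1)) •
      ((Ioi (1 : ℝ)).indicator fun T : ℝ => q T * (T : ℂ) ^ (-s)) (x ^ (-1 : ℝ)) =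
      (Ioo (0 : ℝ) 1).indicator (fun T : ℝ => q (1 / T) * (T : ℂ) ^ (s - 2)) x := by
    intro x hx
    have hx0 : (0 : ℝ) < x := hx
    have hxc : (x : ℂ) ≠ 0 := by exact_mod_cast hx0.ne'
    rw [Real.rpow_neg_one]
    by_cases h : x < 1
    · have h4 : x⁻¹ ∈ Ioi (1 : ℝ) := (one_lt_inv₀ hx0).mpr h
      have h5 : x ∈ Ioo (0 : ℝ) 1 := ⟨hx0, h⟩
      rw [indicator_of_mem h4, indicator_of_mem h5, abs_neg, abs_one, one_mul,
        Complex.real_smul, one_div]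
      have h6 : ((x⁻¹ : ℝ) : ℂ) ^ (-s) = (x : ℂ) ^ s := by
        rw [Complex.ofReal_inv, Complex.inv_cpow _ _ (by
          rw [Complex.arg_ofReal_of_nonneg hx0.le]
          exact Real.pi_ne_zero.symm), Complex.cpow_neg, inv_inv]
      have h7 : ((x ^ ((-1 : ℝ) - 1) : ℝ) : ℂ) = (x : ℂ) ^ (-2 : ℂ) := by
        rw [Complex.ofReal_cpow hx0.le]
        norm_num
      rw [h6, h7, sub_eq_add_neg s 2, Complex.cpow_add _ _ hxc]
      ring
    · have h4 : x⁻¹ ∉ Ioi (1 : ℝ) := fun h' => h ((one_lt_inv₀ hx0).mp h')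
      have h5 : x ∉ Ioo (0 : ℝ) 1 := fun h' => h h'.2
      rw [indicator_of_notMem h4, indicator_of_notMem h5, smul_zero]
  constructor
  · have h4 : IntegrableOn ((Ioo (0 : ℝ) 1).indicator
        (fun T : ℝ => q (1 / T) * (T : ℂ) ^ (s - 2))) (Ioi 0) :=
      h1.congr_fun h3 measurableSet_Ioi
    have h5 : IntegrableOn ((Ioo (0 : ℝ) 1).indicator
        (fun T : ℝ => q (1 / T) * (T : ℂ) ^ (s - 2))) (Ioo 0 1) := h4.mono_set Ioo_subset_Ioi_self
    exact h5.congr_fun (fun x hx => indicator_of_mem hx _) measurableSet_Ioo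
  · rw [setIntegral_congr_fun measurableSet_Ioi h3] at h2
    rw [setIntegral_indicator measurableSet_Ioo, setIntegral_indicator measurableSet_Ioi,
      inter_eq_self_of_subset_right Ioo_subset_Ioi_self,
      inter_eq_self_of_subset_right hsub] at h2
    exact h2

end Pool.Agent.H26.GLA
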