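import Pool.Agent.H23.LB.Targets
import Pool.Agent.H66.HK.FD
import Pool.Agent.H26.GLA.AZ1

/-!
# (AZ) the Mellin transform of the theta function of a coset
-/

set_option autoImplicit false

open NumberField NumberField.InfinitePlace NumberField.Units
  NumberField.Units.dirichletUnitTheorem MeasureTheory Set Filter Complex
open scoped nonZeroDivisors ENNReal

namespace Pool.Agent.H26.GLA

open Pool.Agent.H25.HK Pool.Agent.H28.RC Pool.Agent.H23.LB

theorem cpow_01 (r : ℂ) (hr : -1 < r.re) :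
    IntegrableOn (fun T : ℝ => (T : ℂ) ^ r) (Ioo 0 1) ∧
      ∫ T in Ioo (0 : ℝ) 1, (T : ℂ) ^ r = 1 / (r + 1) := by
  have h1 : IntervalIntegrable (fun x : ℝ => (x : ℂ) ^ r) volume 0 1 :=
    intervalIntegral.intervalIntegrable_cpow' hr
  have h2 := (intervalIntegrable_iff_integrableOn_Ioo_of_le zero_le_one).mp h1
  refine ⟨h2, ?_⟩
  have h3 : r + 1 ≠ 0 := by
    intro h
    have h4 := congrArg Complex.re h
    simp at h4
    linarith
  rw [← integral_Ioc_eq_integral_Ioo, ← intervalIntegral.integral_of_le zero_le_one,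
    integral_cpow (Or.inl hr)]
  simp [Complex.zero_cpow h3]

section

variable (K : Type) [Field K] [NumberField K]

open scoped Classical in
theorem ec_cont (ν : InfinitePlace K → ℝ) : Continuous (ec K ν) := by
  unfold ec pr
  fun_prop

open scoped Classical in
theorem ec_norm (ν : InfinitePlace K → ℝ) (z : logSpace K) : ‖ec K ν z‖ = 1 := by
  unfold ec
  rw [← Complex.ofReal_neg]
  exact Complex.norm_exp_ofReal_mul_I _

end

open scoped Classical in
theorem pf_AZ (hWF : T_WF) (hWC : T_WC) : T_AZ := by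
  intro K _ _ S f M r φ hf hM hr hφ
  obtain ⟨-, hW1, hW2, hdec⟩ := hWC K S f M r φ hf hM hr hφ
  have hfe := hWF K S f M r φ hf hM hr hφ
  have hn : (0 : ℝ) < Module.finrank ℚ K := by exact_mod_cast Module.finrank_pos
  have ha : (0 : ℝ) < (2 : ℝ) / Module.finrank ℚ K := by positivity
  let F1 : ℝ × logSpace K → ℂ := fun p => W K S f M r φ p.2 p.1 - d0 K S f M r
  let F2 : ℝ × logSpace K → ℂ := fun p => W' K S f M r φ p.2 p.1 - d1 K S
  have c1 : ContinuousOn F1 (Ioi 0 ×ˢ univ) := hW1.sub continuousOn_const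
  have c2 : ContinuousOn F2 (Ioi 0 ×ˢ univ) := hW2.sub continuousOn_const
  have e1 : Dcy F1 ((2 : ℝ) / Module.finrank ℚ K) := by
    intro B
    obtain ⟨C, c, hc, h⟩ := hdec B
    exact ⟨C, c, hc, fun T hT z hz => (h T hT z hz).1⟩
  have e2 : Dcy F2 ((2 : ℝ) / Module.finrank ℚ K) := by
    intro B
    obtain ⟨C, c, hc, h⟩ := hdec B
    exact ⟨C, c, hc, fun T hT z hz => (h T hT z hz).2⟩
  have hs1 : ∀ s : ℂ, (1 - s) - 1 = -s := fun s => by ring
  have i1 : ∀ (z : logSpace K) (s : ℂ),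
      IntegrableOn (fun T : ℝ => (W K S f M r φ z T - d0 K S f M r) * (T : ℂ) ^ (s - 1))
        (Ioi 1) := fun z s => int_one ha c1 e1 z s
  have i2 : ∀ (z : logSpace K) (s : ℂ),
      IntegrableOn (fun T : ℝ => (W' K S f M r φ z T - d1 K S) * (T : ℂ) ^ (-s)) (Ioi 1) := by
    intro z s
    have h := int_one ha c2 e2 z (1 - s)
    rw [hs1] at h
    exact h
  have z1 : ∀ s : ℂ, Continuous fun z : logSpace K => ∫ T in Ioi (1 : ℝ),
      (W K S f M r φ z T - d0 K S f M r) * (T : ℂ) ^ (s - 1) := fun s => cont_z ha c1 e1 s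
  have z2 : ∀ s : ℂ, Continuous fun z : logSpace K => ∫ T in Ioi (1 : ℝ),
      (W' K S f M r φ z T - d1 K S) * (T : ℂ) ^ (-s) := by
    intro s
    have h := cont_z ha c2 e2 (1 - s)
    rw [hs1] at h
    exact h
  refine ⟨?_, ?_, ?_, fun z s => ⟨i1 z s, i2 z s⟩⟩
  · -- the Mellin transform
    intro z s hs
    have hs2 : -1 < (s - 2).re := by simp; linarith
    have hs3 : -1 < (s - 1).re := by simp; linarith
    obtain ⟨a1, a2⟩ := cpow_01 (s - 2) hs2
    obtain ⟨b1, b2⟩ := cpow_01 (s - 1) hs3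
    obtain ⟨v1, v2⟩ := inv_int (fun T => W' K S f M r φ z T - d1 K S) s (i2 z s)
    have key : ∀ T ∈ Ioo (0 : ℝ) 1,
        (W K S f M r φ z T - d0 K S f M r) * (T : ℂ) ^ (s - 1) =
        rn K S φ * ((W' K S f M r φ z (1 / T) - d1 K S) * (T : ℂ) ^ (s - 2)) +
          rn K S φ * d1 K S * (T : ℂ) ^ (s - 2) - d0 K S f M r * (T : ℂ) ^ (s - 1) := by
      intro T hT
      have hT0 : (0 : ℝ) < T := hT.1
      have hTc : (T : ℂ) ≠ 0 := by exact_mod_cast hT0.ne'
      have h1 := hfe z (1 / T) (by positivity)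
      rw [one_div_one_div] at h1
      have h2 : (T : ℂ) ^ (s - 1) = (T : ℂ) ^ (s - 2) * T := by
        rw [show s - 1 = (s - 2) + 1 by ring, Complex.cpow_add _ _ hTc, Complex.cpow_one]
      rw [h1, h2]
      push_cast
      field_simp
      ring
    have j1 : IntegrableOn (fun T : ℝ => rn K S φ * ((W' K S f M r φ z (1 / T) - d1 K S) *
        (T : ℂ) ^ (s - 2))) (Ioo 0 1) := v1.const_mul _
    have j2 : IntegrableOn (fun T : ℝ => rn K S φ * d1 K S * (T : ℂ) ^ (s - 2)) (Ioo 0 1) :=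
      a1.const_mul _
    have j3 : IntegrableOn (fun T : ℝ => d0 K S f M r * (T : ℂ) ^ (s - 1)) (Ioo 0 1) :=
      b1.const_mul _
    have k1 : IntegrableOn (fun T : ℝ => (W K S f M r φ z T - d0 K S f M r) *
        (T : ℂ) ^ (s - 1)) (Ioo 0 1) :=
      ((j1.add j2).sub j3).congr_fun (fun T hT => (key T hT).symm) measurableSet_Ioo
    have k2 : ∫ T in Ioo (0 : ℝ) 1, (W K S f M r φ z T - d0 K S f M r) * (T : ℂ) ^ (s - 1) =
        rn K S φ * (∫ T in Ioi (1 : ℝ), (W' K S f M r φ z T - d1 K S) * (T : ℂ) ^ (-s)) +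
          rn K S φ * d1 K S * (1 / (s - 2 + 1)) - d0 K S f M r * (1 / (s - 1 + 1)) := by
      rw [setIntegral_congr_fun measurableSet_Ioo key]
      have l1 := integral_sub (j1.add j2) j3
      have l2 := integral_add j1 j2
      simp only [Pi.add_apply] at l1 l2
      rw [l1, l2, integral_const_mul, integral_const_mul, integral_const_mul, v2, a2, b2]
    have k3 : IntegrableOn (fun T : ℝ => (W K S f M r φ z T - d0 K S f M r) *
        (T : ℂ) ^ (s - 1)) (Ioc 0 1) := Iff.mpr integrableOn_Ioc_iff_integrableOn_Ioo k1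
    have hun : Ioc (0 : ℝ) 1 ∪ Ioi 1 = Ioi 0 := Ioc_union_Ioi_eq_Ioi zero_le_one
    refine ⟨?_, ?_⟩
    · rw [← hun]
      exact k3.union (i1 z s)
    · rw [← hun, setIntegral_union (Ioc_disjoint_Ioi le_rfl)
        measurableSet_Ioi k3 (i1 z s), integral_Ioc_eq_integral_Ioo, k2]
      unfold EZ E0
      have hs0 : s ≠ 0 := by
        rintro rfl
        simp at hs
        linarith
      have hs1' : s - 1 ≠ 0 := by
        intro h
        have := congrArg Complex.re h
        simp at this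
        linarith
      have hs1'' : (1 : ℂ) - s ≠ 0 := by
        intro h
        apply hs1'
        linear_combination -h
      rw [show s - 2 + 1 = s - 1 by ring, show s - 1 + 1 = s by ring]
      field_simp
      ring
  · intro s
    unfold E0
    exact (z1 s).add ((z2 s).const_mul _)
  · intro ν
    obtain ⟨f1, f2, -, f4, -⟩ := Pool.Agent.H66.HK.fd K
    obtain ⟨p1, p2⟩ := param ha c1 e1 f1 f4 f2 (ec_cont K ν) (ec_norm K ν)
    obtain ⟨q1, q2⟩ := param ha c2 e2 f1 f4 f2 (ec_cont K ν) (ec_norm K ν)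
    have h : (fun s => ∫ z in Fd K, ec K ν z * E0 K S f M r φ z s) = fun s =>
        (∫ z in Fd K, ec K ν z * ∫ T in Ioi (1 : ℝ), F1 (T, z) * (T : ℂ) ^ (s - 1)) +
        rn K S φ * ∫ z in Fd K, ec K ν z * ∫ T in Ioi (1 : ℝ),
          F2 (T, z) * (T : ℂ) ^ ((1 - s) - 1) := by
      funext s
      rw [← integral_const_mul, ← integral_add (p1 s) ((q1 (1 - s)).const_mul _)]
      refine integral_congr_ae (Eventually.of_forall fun z => ?_)
      simp only [F1, F2]
      unfold E0
      rw [hs1]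
      ring
    rw [h]
    exact p2.add ((q2.comp (f := fun s : ℂ => 1 - s) (by fun_prop)).const_mul _)

end Pool.Agent.H26.GLA
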