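import Pool.Agent.H26.MV.Cnt

/-!
# (CH) the number of characters
-/

set_option autoImplicit false

namespace Pool.Agent.H26.GLA

theorem pf_CH : Pool.Agent.H23.LB.T_CH := Pool.Agent.H26.MV.pf_CH

end Pool.Agent.H26.GLA
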